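import Pool.Agent.Lib.MP_eee7a8_ag.TB.C81.GradBase

/-!
# TAGBR: module GRAD (degrees)
-/

open Matrix

namespace Pool.Agent.Lib.MP_eee7a8_ag.TB.C81

variable {G : Subgroup SLZ} {K : Type*} [Field K] [Algebra ℂ K]

section Common

variable {ι : Type} [Fintype ι]

/-- Products of lambda lengths and inverses have a homogeneous denominator. -/
theorem HM.common {L : Lam G K} {T : Fam ι} (hc : L.IsChart T)
    (hlam : ∀ a b, IsG L T (ends G a b) (L.lam a b)) (hnz : ∀ a b, a ≠ b → L.lam a b ≠ 0)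
    {δ : Cusp → ℤ} {x : K} (hx : L.HM δ x) :
    ∃ (ε : Cusp → ℤ) (D : K), D ≠ 0 ∧ IsG L T ε D ∧ IsG L T (ε + δ) (D * x) := by
  induction hx with
  | one =>
    refine ⟨0, 1, one_ne_zero, ?_, ?_⟩
    · have := IsG.const L T 1
      rwa [map_one] at this
    · have := IsG.const L T 1
      rwa [map_one, ← mul_one (1 : K), ← add_zero (0 : Cusp → ℤ)] at this
  | mul δ' y a b hab _ ih =>
    obtain ⟨ε, D, hD, h1, h2⟩ := ih
    refine ⟨ε, D, hD, h1, ?_⟩
    rw [← add_assoc, ← mul_assoc]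
    exact IsG.mul hc h2 (hlam a b)
  | inv δ' y a b hab _ ih =>
    obtain ⟨ε, D, hD, h1, h2⟩ := ih
    refine ⟨ε + ends G a b, D * L.lam a b, mul_ne_zero hD (hnz a b hab),
      IsG.mul hc h1 (hlam a b), ?_⟩
    have e1 : ε + ends G a b + (δ' - ends G a b) = ε + δ' := by abel
    have e2 : D * L.lam a b * (y * (L.lam a b)⁻¹) = D * y := by
      have := hnz a b hab
      field_simp
    rw [e1, e2]
    exact h2

theorem Hom.common {L : Lam G K} {T : Fam ι} (hc : L.IsChart T)
    (hlam : ∀ a b, IsG L T (ends G a b) (L.lam a b)) (hnz : ∀ a b, a ≠ b → L.lam a b ≠ 0)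
    {δ : Cusp → ℤ} {x : K} (hx : x ∈ L.Hom δ) :
    ∃ (ε : Cusp → ℤ) (D : K), D ≠ 0 ∧ IsG L T ε D ∧ IsG L T (ε + δ) (D * x) := by
  unfold Lam.Hom at hx
  induction hx using Submodule.span_induction with
  | mem x hx => exact HM.common hc hlam hnz hx
  | zero =>
    refine ⟨0, 1, one_ne_zero, ?_, ?_⟩
    · have := IsG.const L T 1
      rwa [map_one] at this
    · rw [mul_zero]; exact IsG.zero L T _
  | add x y _ _ h1 h2 =>
    obtain ⟨ε1, D1, n1, a1, b1⟩ := h1
    obtain ⟨ε2, D2, n2, a2, b2⟩ := h2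
    refine ⟨ε1 + ε2, D1 * D2, mul_ne_zero n1 n2, IsG.mul hc a1 a2, ?_⟩
    have e1 : D1 * D2 * (x + y) = D2 * (D1 * x) + D1 * (D2 * y) := by ring
    rw [e1]
    apply IsG.add hc
    · have := IsG.mul hc a2 b1
      have e2 : ε2 + (ε1 + δ) = ε1 + ε2 + δ := by abel
      rwa [e2] at this
    · have := IsG.mul hc a1 b2
      rwa [← add_assoc] at this
  | smul c x _ h =>
    obtain ⟨ε, D, hD, h1, h2⟩ := h
    refine ⟨ε, D, hD, h1, ?_⟩
    rw [mul_smul_comm]
    exact IsG.smul hc h2 c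

theorem Hom.family {L : Lam G K} {T : Fam ι} (hc : L.IsChart T)
    (hlam : ∀ a b, IsG L T (ends G a b) (L.lam a b)) (hnz : ∀ a b, a ≠ b → L.lam a b ≠ 0)
    (x : (Cusp → ℤ) → K) (s : Finset (Cusp → ℤ)) (hx : ∀ δ ∈ s, x δ ∈ L.Hom δ) :
    ∃ (ε : Cusp → ℤ) (D : K), D ≠ 0 ∧ IsG L T ε D ∧
      ∀ δ ∈ s, IsG L T (ε + δ) (D * x δ) := by
  classical
  induction s using Finset.induction_on with
  | empty =>
    refine ⟨0, 1, one_ne_zero, ?_, fun δ hδ => by simp at hδ⟩
    have := IsG.const L T 1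
    rwa [map_one] at this
  | insert a s ha ih =>
    obtain ⟨ε1, D1, n1, a1, b1⟩ := ih (fun δ hδ => hx δ (Finset.mem_insert_of_mem hδ))
    obtain ⟨ε2, D2, n2, a2, b2⟩ := Hom.common hc hlam hnz (hx a (Finset.mem_insert_self _ _))
    refine ⟨ε1 + ε2, D1 * D2, mul_ne_zero n1 n2, IsG.mul hc a1 a2, ?_⟩
    intro δ hδ
    rcases Finset.mem_insert.1 hδ with rfl | hδ
    · have := IsG.mul hc a1 b2
      rwa [← add_assoc, ← mul_assoc] at this
    · have := IsG.mul hc a2 (b1 δ hδ)
      have e2 : ε2 + (ε1 + δ) = ε1 + ε2 + δ := by abel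
      have e3 : D2 * (D1 * x δ) = D1 * D2 * x δ := by ring
      rwa [e2, e3] at this

end Common

theorem Hom.indep {L : Lam G K} {ι : Type} [Fintype ι] {T : Fam ι} (hc : L.IsChart T)
    (hlam : ∀ a b, IsG L T (ends G a b) (L.lam a b)) (hnz : ∀ a b, a ≠ b → L.lam a b ≠ 0)
    (s : Finset (Cusp → ℤ)) (x : (Cusp → ℤ) → K) (hx : ∀ δ ∈ s, x δ ∈ L.Hom δ)
    (h0 : ∑ δ ∈ s, x δ = 0) : ∀ δ ∈ s, x δ = 0 := by
  obtain ⟨ε, D, hD, -, h2⟩ := Hom.family hc hlam hnz x s hx
  intro δ hδ
  have h3 := IsG.indep hc s (fun δ => D * x δ) ε h2 (by rw [← Finset.mul_sum, h0, mul_zero]) δ hδ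
  exact (mul_eq_zero.1 h3).resolve_left hD

/-- The image of a cusp different from `a` under a parabolic element. -/
theorem par_ne {a b : Cusp} {n : ℤ} (hn : n ≠ 0) (hab : a ≠ b) : b ≠ par a n • b := by
  intro h
  have h1 : side (par a n) b = -(n * dt a b ^ 2) := by
    unfold side par dt
    simp only [Matrix.of_apply, Matrix.cons_val', Matrix.cons_val_zero, Matrix.cons_val_one,
      Matrix.cons_val_fin_one]
    ring
  have h2 : side (par a n) b = 0 := by
    have hx := smul_x (par a n) b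
    have hy := smul_y (par a n) b
    rw [← h] at hx hy
    unfold side
    rw [← hx, ← hy]
    ring
  rw [h2] at h1
  have h3 : dt a b ≠ 0 := dt_ne_zero hab
  have h4 : n * dt a b ^ 2 ≠ 0 := mul_ne_zero hn (pow_ne_zero 2 h3)
  omega

theorem infty_ne_zero : infty ≠ zero := by
  intro h
  have := congrArg Cusp.x h
  simp [infty, zero] at this

theorem other_ne (a : Cusp) : a ≠ other a := by
  classical
  unfold other
  split_ifs with h
  · rw [h]; exact infty_ne_zero
  · exact h

theorem HM.v (hS : StabStatement) (L : Lam G K) (hG : IsSurface G) (a : Cusp) :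
    L.HM (-ends G a a) (L.v a) := by
  obtain ⟨h1, h2, -⟩ := hS G hG a
  have hw : ((width G a : ℕ) : ℤ) ≠ 0 := by exact_mod_cast (ne_of_gt h1)
  have hne : other a ≠ par a (width G a) • other a := par_ne hw (other_ne a)
  have e1 : L.v a = 1 * L.lam (other a) (par a (width G a) • other a) *
      (L.lam a (other a))⁻¹ * (L.lam a (other a))⁻¹ := by
    unfold Lam.v
    rw [one_mul, div_eq_mul_inv, mul_assoc, pow_two, mul_inv]
  have e2 : -ends G a a = 0 + ends G (other a) (par a (width G a) • other a) -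
      ends G a (other a) - ends G a (other a) := by
    have e3 : ind G (par a (width G a) • other a) = ind G (other a) := by
      rcases h2 with h2 | h2
      · exact ind_smul h2 _
      · have := ind_smul h2 (other a)
        rwa [neg_smul'] at this
    simp only [ends_eq, e3]
    abel
  rw [e1, e2]
  exact Lam.HM.inv _ _ _ _ (other_ne a) (Lam.HM.inv _ _ _ _ (other_ne a)
    (Lam.HM.mul _ _ _ _ hne Lam.HM.one))

theorem ne_of_hyp {g : SLZ} (h : 2 < |g.1.trace|) (v : Cusp) : v ≠ g • v := by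
  intro he
  apply PB.side_ne_zero h v
  have hx := smul_x g v
  have hy := smul_y g v
  rw [← he] at hx hy
  unfold side
  rw [← hx, ← hy]
  ring

theorem trace_sq (h : SLZ) : (h * h).1.trace = h.1.trace ^ 2 - 2 := by
  have := det_eq h
  rw [Matrix.trace_fin_two, Matrix.trace_fin_two]
  simp only [Matrix.SpecialLinearGroup.coe_mul, Matrix.mul_apply, Fin.sum_univ_two]
  linear_combination (-2) * this

theorem HM.tr (L : Lam G K) {h : SLZ} (hh : h ∈ G) (ht : 2 < |h.1.trace|) :
    L.HM 0 (L.tr h) := by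
  have h1 : infty ≠ h • infty := ne_of_hyp ht _
  have ht2 : 2 < |(h * h).1.trace| := by
    rw [trace_sq]
    have h3 : (3 : ℤ) ≤ |h.1.trace| := by omega
    have h4 : 9 ≤ h.1.trace ^ 2 := by
      calc (9 : ℤ) = 3 * 3 := by norm_num
        _ ≤ |h.1.trace| * |h.1.trace| := mul_le_mul h3 h3 (by norm_num) (abs_nonneg _)
        _ = h.1.trace ^ 2 := by rw [abs_mul_abs_self]; ring
    exact lt_of_lt_of_le (by linarith) (le_abs_self _)
  have h2 : infty ≠ (h * h) • infty := ne_of_hyp ht2 _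
  have e1 : L.tr h = 1 * L.lam infty ((h * h) • infty) * (L.lam infty (h • infty))⁻¹ := by
    unfold Lam.tr
    rw [one_mul, div_eq_mul_inv]
  have e2 : (0 : Cusp → ℤ) = 0 + ends G infty ((h * h) • infty) - ends G infty (h • infty) := by
    simp only [ends_eq, ind_smul hh, ind_smul (G.mul_mem hh hh)]
    abel
  rw [e1, e2]
  exact Lam.HM.inv _ _ _ _ h1 (Lam.HM.mul _ _ _ _ h2 Lam.HM.one)

theorem Hom.one {L : Lam G K} : (1 : K) ∈ L.Hom 0 := HM.mem Lam.HM.one

theorem Hom.tk {L : Lam G K} {t : K} (ht : t ∈ L.Hom 0) (k : ℕ) :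
    TB.tk t k ∈ L.Hom 0 := by
  have key : ∀ k : ℕ, TB.tk t k ∈ L.Hom 0 ∧ TB.tk t (k + 1) ∈ L.Hom 0 := by
    intro k
    induction k with
    | zero =>
      constructor
      · have h1 : TB.tk t 0 = (2 : ℂ) • (1 : K) := by
          rw [Algebra.smul_def, mul_one, map_ofNat]
          rfl
        rw [h1]
        exact Submodule.smul_mem _ _ Hom.one
      · exact ht
    | succ k ih =>
      refine ⟨ih.2, ?_⟩
      have h1 : TB.tk t (k + 1 + 1) = t * TB.tk t (k + 1) - TB.tk t k := rfl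
      rw [h1]
      have h2 := Hom.mul' ht ih.2
      rw [add_zero] at h2
      exact Submodule.sub_mem _ h2 ih.1
  exact (key k).1

theorem Hom.IS {L : Lam G K} (β : Sys G) : L.IS β ∈ L.Hom β.deg := by
  have h1 : ∀ l : List (Cusp × Cusp), (∀ p ∈ l, p.1 ≠ p.2) →
      (l.map (fun p => L.lam p.1 p.2)).prod ∈ L.Hom (l.map (fun p => ends G p.1 p.2)).sum := by
    intro l hl
    induction l with
    | nil => simp only [List.map_nil, List.prod_nil, List.sum_nil]; exact Hom.one
    | cons p l ih =>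
      simp only [List.map_cons, List.prod_cons, List.sum_cons]
      exact Hom.mul' (HM.mem (HM.lam (hl p List.mem_cons_self)))
        (ih (fun q hq => hl q (List.mem_cons_of_mem _ hq)))
  have h2 : ∀ l : List (SLZ × ℕ), (∀ p ∈ l, IsLoop G p.1 ∧ 1 ≤ p.2) →
      (l.map (fun l => TB.tk (L.tr l.1) l.2)).prod ∈ L.Hom 0 := by
    intro l hl
    induction l with
    | nil => simp only [List.map_nil, List.prod_nil]; exact Hom.one
    | cons p l ih =>
      simp only [List.map_cons, List.prod_cons]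
      have h3 := (hl p List.mem_cons_self).1
      have h4 := Hom.mul' (Hom.tk (HM.mem (HM.tr L h3.mem h3.hyp)) p.2)
        (ih (fun q hq => hl q (List.mem_cons_of_mem _ hq)))
      rwa [add_zero] at h4
  have h3 := Hom.mul' (h1 β.arcs β.ne) (h2 β.loops β.loop)
  rw [add_zero] at h3
  exact h3

theorem grad (hS : StabStatement) (hFa : FareyStatement) (hC : ChartStatement)
    (hN : NonzeroStatement) : GradStatement := by
  intro G K _ _ L hG
  obtain ⟨n, T, hT, hF⟩ := hFa G hG
  have hc := hC G K L hG (Fin n) T hT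
  have hnz := hN G K L hG
  have hlam : ∀ a b, IsG L T (ends G a b) (L.lam a b) := fun a b =>
    IsG.lam L hc hT hF hnz (dt a b).natAbs a b (by rw [Int.abs_eq_natAbs])
  refine ⟨?_, ?_, ?_, ?_, ?_, ?_, ?_, ?_, ?_⟩
  · exact fun s x => Hom.indep hc hlam hnz s x
  · exact fun δ δ' x y => Hom.mul'
  · intro a b
    by_cases hab : a = b
    · rw [hab, L.self]; exact Submodule.zero_mem _
    · exact HM.mem (HM.lam hab)
  · exact fun a b hab => HM.mem (HM.inv' (HM.lam hab))
  · exact fun a => HM.mem (HM.v hS L hG a)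
  · intro a
    have := HM.inv' (HM.v hS L hG a)
    rw [neg_neg] at this
    exact HM.mem this
  · exact fun h hh ht => HM.mem (HM.tr L hh ht)
  · exact fun β => Hom.IS β
  · intro δ x hx hx0 g hg z
    have : ∃ y, L.HM δ y := by
      by_contra hcon
      push Not at hcon
      apply hx0
      have h1 : {x | L.HM δ x} = (∅ : Set K) := Set.eq_empty_of_forall_notMem hcon
      unfold Lam.Hom at hx
      rw [h1, Submodule.span_empty] at hx
      exact hx
    obtain ⟨y, hy⟩ := this
    exact HM.dinv hy g hg z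

end Pool.Agent.Lib.MP_eee7a8_ag.TB.C81
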