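import Pool.Agent.Lib.MP_eee7a8_ag.TB.Iface3
import Pool.Agent.Lib.MP_eee7a8_ag.TB.StrandLem
import Pool.Agent.Lib.MP_eee7a8_ag.TB.A.Tri

/-!
# TAGBR: module GRAD, first part: homogeneous elements in a chart, degrees of products
-/

open Matrix

namespace Pool.Agent.Lib.MP_eee7a8_ag.TB.C81

variable {G : Subgroup SLZ} {K : Type*} [Field K] [Algebra ℂ K]

/-! ## The functions `ends` -/

theorem orb_smul {g : SLZ} (hg : g ∈ G) (z a : Cusp) :
    (∃ k ∈ G, k • z = g • a) ↔ ∃ k ∈ G, k • z = a := by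
  constructor
  · rintro ⟨k, hk, h⟩
    exact ⟨g⁻¹ * k, G.mul_mem (G.inv_mem hg) hk, by rw [mul_smul, h, inv_smul_smul]⟩
  · rintro ⟨k, hk, h⟩
    exact ⟨g * k, G.mul_mem hg hk, by rw [mul_smul, h]⟩

theorem orb_smul' {g : SLZ} (hg : g ∈ G) (z a : Cusp) :
    (∃ k ∈ G, k • (g • z) = a) ↔ ∃ k ∈ G, k • z = a := by
  constructor
  · rintro ⟨k, hk, h⟩
    exact ⟨k * g, G.mul_mem hk hg, by rw [mul_smul, h]⟩
  · rintro ⟨k, hk, h⟩
    exact ⟨k * g⁻¹, G.mul_mem hk (G.inv_mem hg), by rw [mul_smul, inv_smul_smul, h]⟩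

open Classical in
/-- The indicator of the orbit of `a`. -/
noncomputable def ind (G : Subgroup SLZ) (a : Cusp) : Cusp → ℤ := fun z =>
  if ∃ g ∈ G, g • z = a then 1 else 0

theorem ends_eq (a b : Cusp) : ends G a b = ind G a + ind G b := rfl

theorem ind_smul {g : SLZ} (hg : g ∈ G) (a : Cusp) : ind G (g • a) = ind G a := by
  classical
  funext z
  unfold ind
  simp only [orb_smul hg]

theorem ind_inv {g : SLZ} (hg : g ∈ G) (a z : Cusp) : ind G a (g • z) = ind G a z := by
  classical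
  unfold ind
  simp only [orb_smul' hg]

theorem ends_inv {g : SLZ} (hg : g ∈ G) (a b z : Cusp) :
    ends G a b (g • z) = ends G a b z := by
  rw [ends_eq, Pi.add_apply, Pi.add_apply, ind_inv hg, ind_inv hg]

theorem ends_comm (a b : Cusp) : ends G a b = ends G b a := by
  rw [ends_eq, ends_eq, add_comm]

theorem ends_same {a b c d : Cusp} (h : SameArc G a b c d) : ends G a b = ends G c d := by
  obtain ⟨g, hg, ⟨rfl, rfl⟩ | ⟨rfl, rfl⟩⟩ := h
  · rw [ends_eq, ends_eq, ind_smul hg, ind_smul hg]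
  · rw [ends_eq, ends_eq, ind_smul hg, ind_smul hg, add_comm]

theorem lam_same (L : Lam G K) {a b c d : Cusp} (h : SameArc G a b c d) :
    L.lam c d = L.lam a b := by
  obtain ⟨g, hg, ⟨h1, h2⟩ | ⟨h1, h2⟩⟩ := h
  · rw [← h1, ← h2, L.inv g hg]
  · rw [← h1, ← h2, L.symm, L.inv g hg]

/-! ## Products of lambda lengths -/

theorem HM.mul' {L : Lam G K} {δ δ' : Cusp → ℤ} {x y : K} (hx : L.HM δ x) (hy : L.HM δ' y) :
    L.HM (δ + δ') (x * y) := by
  induction hy with
  | one => rw [add_zero, mul_one]; exact hx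
  | mul δ' y a b hab _ ih =>
    rw [← add_assoc, ← mul_assoc]; exact Lam.HM.mul _ _ a b hab ih
  | inv δ' y a b hab _ ih =>
    rw [← add_sub_assoc, ← mul_assoc]; exact Lam.HM.inv _ _ a b hab ih

theorem HM.inv' {L : Lam G K} {δ : Cusp → ℤ} {x : K} (hx : L.HM δ x) : L.HM (-δ) x⁻¹ := by
  induction hx with
  | one => rw [neg_zero, inv_one]; exact Lam.HM.one
  | mul δ' y a b hab _ ih =>
    rw [mul_inv, neg_add, ← sub_eq_add_neg]; exact Lam.HM.inv _ _ a b hab ih
  | inv δ' y a b hab _ ih =>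
    rw [mul_inv, inv_inv, neg_sub, sub_eq_add_neg, add_comm]; exact Lam.HM.mul _ _ a b hab ih

theorem HM.dinv {L : Lam G K} {δ : Cusp → ℤ} {x : K} (hx : L.HM δ x) :
    ∀ g ∈ G, ∀ z, δ (g • z) = δ z := by
  induction hx with
  | one => intro g _ z; rfl
  | mul δ' y a b hab _ ih =>
    intro g hg z
    rw [Pi.add_apply, Pi.add_apply, ih g hg, ends_inv hg]
  | inv δ' y a b hab _ ih =>
    intro g hg z
    rw [Pi.sub_apply, Pi.sub_apply, ih g hg, ends_inv hg]

theorem HM.lam {L : Lam G K} {a b : Cusp} (h : a ≠ b) : L.HM (ends G a b) (L.lam a b) := by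
  have := Lam.HM.mul 0 1 a b h (Lam.HM.one (L := L))
  rwa [zero_add, one_mul] at this

theorem HM.mem {L : Lam G K} {δ : Cusp → ℤ} {x : K} (hx : L.HM δ x) : x ∈ L.Hom δ :=
  Submodule.subset_span hx

theorem Hom.mul' {L : Lam G K} {δ δ' : Cusp → ℤ} {x y : K} (hx : x ∈ L.Hom δ)
    (hy : y ∈ L.Hom δ') : x * y ∈ L.Hom (δ + δ') := by
  unfold Lam.Hom at hx hy
  induction hx using Submodule.span_induction with
  | mem x hx =>
    induction hy using Submodule.span_induction with
    | mem y hy => exact HM.mem (HM.mul' hx hy)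
    | zero => rw [mul_zero]; exact Submodule.zero_mem _
    | add y y' _ _ h1 h2 => rw [mul_add]; exact Submodule.add_mem _ h1 h2
    | smul c y _ h => rw [mul_smul_comm]; exact Submodule.smul_mem _ _ h
  | zero => rw [zero_mul]; exact Submodule.zero_mem _
  | add x x' _ _ h1 h2 => rw [add_mul]; exact Submodule.add_mem _ h1 h2
  | smul c x _ h => rw [smul_mul_assoc]; exact Submodule.smul_mem _ _ h

/-! ## Homogeneous elements in a chart -/

section Chart

variable {ι : Type} [Fintype ι]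

/-- Laurent polynomials in the chart `T` all of whose monomials have degree `δ`. -/
def IsG (L : Lam G K) (T : Fam ι) (δ : Cusp → ℤ) (x : K) : Prop :=
  ∃ p : AddMonoidAlgebra ℂ (ι → ℤ), L.ev T p = x ∧ ∀ m ∈ p.coeff.support, degT G T m = δ

theorem ev_single (L : Lam G K) (T : Fam ι) (m : ι → ℤ) (c : ℂ) :
    L.ev T (AddMonoidAlgebra.single m c) = algebraMap ℂ K c * L.mon T m := by
  unfold Lam.ev
  rw [AddMonoidAlgebra.coeff_single, Finsupp.sum_single_index]
  rw [map_zero, zero_mul]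

theorem ev_zero (L : Lam G K) (T : Fam ι) : L.ev T 0 = 0 := by
  unfold Lam.ev
  exact Finsupp.sum_zero_index

theorem degT_add (T : Fam ι) (m m' : ι → ℤ) : degT G T (m + m') = degT G T m + degT G T m' := by
  funext z
  unfold degT
  rw [Pi.add_apply, ← Finset.sum_add_distrib]
  exact Finset.sum_congr rfl (fun i _ => by rw [Pi.add_apply]; ring)

theorem degT_zero (T : Fam ι) : degT G T 0 = 0 := by
  funext z
  unfold degT
  simp

theorem mon_zero (L : Lam G K) (T : Fam ι) : L.mon T 0 = 1 := by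
  unfold Lam.mon
  simp

theorem IsG.single (L : Lam G K) (T : Fam ι) (m : ι → ℤ) (c : ℂ) :
    IsG L T (degT G T m) (algebraMap ℂ K c * L.mon T m) := by
  refine ⟨AddMonoidAlgebra.single m c, ev_single L T m c, fun m' hm' => ?_⟩
  rw [AddMonoidAlgebra.coeff_single] at hm'
  rw [Finset.mem_singleton.1 (Finsupp.support_single_subset hm')]

theorem IsG.mon (L : Lam G K) (T : Fam ι) (m : ι → ℤ) : IsG L T (degT G T m) (L.mon T m) := by
  have := IsG.single L T m 1
  rwa [map_one, one_mul] at this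

theorem IsG.const (L : Lam G K) (T : Fam ι) (c : ℂ) : IsG L T 0 (algebraMap ℂ K c) := by
  have := IsG.single L T 0 c
  rwa [degT_zero, mon_zero, mul_one] at this

theorem IsG.zero (L : Lam G K) (T : Fam ι) (δ : Cusp → ℤ) : IsG L T δ 0 :=
  ⟨0, ev_zero L T, fun m hm => by simp at hm⟩

theorem IsG.add {L : Lam G K} {T : Fam ι} (hc : L.IsChart T) {δ : Cusp → ℤ} {x y : K}
    (hx : IsG L T δ x) (hy : IsG L T δ y) : IsG L T δ (x + y) := by
  obtain ⟨p, rfl, hp⟩ := hx
  obtain ⟨q, rfl, hq⟩ := hy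
  classical
  refine ⟨p + q, hc.add p q, fun m hm => ?_⟩
  rw [AddMonoidAlgebra.coeff_add] at hm
  rcases Finset.mem_union.1 (Finsupp.support_add hm) with h | h
  · exact hp m h
  · exact hq m h

theorem IsG.mul {L : Lam G K} {T : Fam ι} (hc : L.IsChart T) {δ δ' : Cusp → ℤ} {x y : K}
    (hx : IsG L T δ x) (hy : IsG L T δ' y) : IsG L T (δ + δ') (x * y) := by
  obtain ⟨p, rfl, hp⟩ := hx
  obtain ⟨q, rfl, hq⟩ := hy
  classical
  refine ⟨p * q, hc.mul p q, fun m hm => ?_⟩
  obtain ⟨m1, h1, m2, h2, rfl⟩ := Finset.mem_add.1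
    (AddMonoidAlgebra.support_coeff_mul_subset p q hm)
  rw [degT_add, hp m1 h1, hq m2 h2]

theorem IsG.smul {L : Lam G K} {T : Fam ι} (hc : L.IsChart T) {δ : Cusp → ℤ} {x : K}
    (hx : IsG L T δ x) (c : ℂ) : IsG L T δ (c • x) := by
  have := IsG.mul hc (IsG.const L T c) hx
  rwa [zero_add, ← Algebra.smul_def] at this

theorem IsG.indep {L : Lam G K} {T : Fam ι} (hc : L.IsChart T) (s : Finset (Cusp → ℤ))
    (x : (Cusp → ℤ) → K) (e : Cusp → ℤ) (hx : ∀ δ ∈ s, IsG L T (e + δ) (x δ))
    (h0 : ∑ δ ∈ s, x δ = 0) : ∀ δ ∈ s, x δ = 0 := by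
  classical
  have hx' : ∀ δ, ∃ p : AddMonoidAlgebra ℂ (ι → ℤ), δ ∈ s → (L.ev T p = x δ ∧
      ∀ m ∈ p.coeff.support, degT G T m = e + δ) := by
    intro δ
    by_cases hδ : δ ∈ s
    · obtain ⟨p, hp⟩ := hx δ hδ
      exact ⟨p, fun _ => hp⟩
    · exact ⟨0, fun h => absurd h hδ⟩
  choose p hp using hx'
  have hsum : ∀ t : Finset (Cusp → ℤ), L.ev T (∑ δ ∈ t, p δ) = ∑ δ ∈ t, L.ev T (p δ) := by
    intro t
    induction t using Finset.induction_on with
    | empty => simp [ev_zero]
    | insert a t ha ih => rw [Finset.sum_insert ha, Finset.sum_insert ha, hc.add, ih]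
  have h1 : ∑ δ ∈ s, p δ = 0 := by
    apply hc.inj
    rw [hsum, ev_zero, ← h0]
    exact Finset.sum_congr rfl (fun δ hδ => (hp δ hδ).1)
  intro δ hδ
  have h2 : p δ = 0 := by
    apply AddMonoidAlgebra.ext
    apply Finsupp.ext
    intro m
    by_contra hne
    have hm : m ∈ (p δ).coeff.support := Finsupp.mem_support_iff.2 hne
    have hd := (hp δ hδ).2 m hm
    have h3 : (∑ δ ∈ s, p δ).coeff m = (p δ).coeff m := by
      have h4 : ∀ t : Finset (Cusp → ℤ), (∑ δ ∈ t, p δ).coeff m = ∑ δ ∈ t, (p δ).coeff m := by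
        intro t
        induction t using Finset.induction_on with
        | empty => simp
        | insert a t ha ih =>
          rw [Finset.sum_insert ha, Finset.sum_insert ha, AddMonoidAlgebra.coeff_add,
            Finsupp.add_apply, ih]
      rw [h4]
      apply Finset.sum_eq_single_of_mem δ hδ
      intro δ' hδ' hne'
      by_contra hne2
      have hd' := (hp δ' hδ').2 m (Finsupp.mem_support_iff.2 hne2)
      rw [hd] at hd'
      exact hne' (add_left_cancel hd').symm
    apply hne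
    rw [← h3, h1]
  rw [← (hp δ hδ).1, h2, ev_zero]

open Classical in
theorem mon_single (L : Lam G K) (T : Fam ι) (i : ι) (k : ℤ) :
    L.mon T (Pi.single i k) = L.lam (T.s i) (T.t i) ^ k := by
  unfold Lam.mon
  rw [Finset.prod_eq_single_of_mem i (Finset.mem_univ i)]
  · rw [Pi.single_eq_same]
  · intro j _ hj
    rw [Pi.single_eq_of_ne hj, zpow_zero]

open Classical in
theorem degT_single (T : Fam ι) (i : ι) (k : ℤ) :
    degT G T (Pi.single i k) = k • ends G (T.s i) (T.t i) := by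
  funext z
  unfold degT
  rw [Finset.sum_eq_single_of_mem i (Finset.mem_univ i)]
  · rw [Pi.single_eq_same]; rfl
  · intro j _ hj
    rw [Pi.single_eq_of_ne hj, zero_mul]

theorem IsG.edge (L : Lam G K) {T : Fam ι} {a b : Cusp} (h : T.E G a b) :
    IsG L T (ends G a b) (L.lam a b) := by
  classical
  obtain ⟨i, hi⟩ := h
  have := IsG.mon L T (Pi.single i 1)
  rwa [mon_single, degT_single, one_smul, zpow_one, ends_same hi, ← lam_same L hi] at this

theorem IsG.edge_inv (L : Lam G K) {T : Fam ι} {a b : Cusp} (h : T.E G a b) :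
    IsG L T (-ends G a b) (L.lam a b)⁻¹ := by
  classical
  obtain ⟨i, hi⟩ := h
  have := IsG.mon L T (Pi.single i (-1))
  rwa [mon_single, degT_single, neg_smul, one_smul, _root_.zpow_neg, zpow_one, ends_same hi,
    ← lam_same L hi] at this

/-- Lambda lengths are homogeneous in the Farey chart. -/
theorem IsG.lam (L : Lam G K) {T : Fam ι} (hc : L.IsChart T) (hT : T.IsTri G)
    (hF : ∀ a b, T.E G a b ↔ |dt a b| = 1) (hnz : ∀ a b, a ≠ b → L.lam a b ≠ 0) :
    ∀ (n : ℕ) (a b : Cusp), |dt a b| ≤ n → IsG L T (ends G a b) (L.lam a b) := by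
  intro n
  induction n with
  | zero =>
    intro a b h
    have h1 : a = b := by
      rw [← dt_eq_zero, ← abs_eq_zero]
      have := abs_nonneg (dt a b)
      push_cast at h
      omega
    rw [h1, L.self]
    exact IsG.zero L T _
  | succ n ih =>
    intro a b h
    by_cases hab : a = b
    · rw [hab, L.self]; exact IsG.zero L T _
    rcases hT.star a b hab with hE | ⟨c, d, h1, h2, h3, hcr⟩
    · exact IsG.edge L hE
    · have hp := hcr.ptolemy
      rw [(hF _ _).1 h1, (hF _ _).1 h2, (hF _ _).1 h3] at hp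
      have hne := hcr.ne
      have hbd := one_le_abs_dt hne.2.2.2.2.1
      have hbc := one_le_abs_dt hne.2.2.2.1
      have e1 : IsG L T (ends G b d) (L.lam b d) := ih b d (by push_cast at h; omega)
      have e2 : IsG L T (ends G b c) (L.lam b c) := ih b c (by push_cast at h; omega)
      have e3 := L.ptolemy a b c d hcr
      have e4 : L.lam a b = (L.lam a c * L.lam b d + L.lam a d * L.lam b c) *
          (L.lam c d)⁻¹ := by
        rw [← e3, mul_assoc, mul_inv_cancel₀ (hnz c d hne.2.2.2.2.2), mul_one]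
      rw [e4]
      have f1 := IsG.mul hc (IsG.edge L h1) e1
      have f2 := IsG.mul hc (IsG.edge L h2) e2
      have g1 : ends G a c + ends G b d = ends G a d + ends G b c := by
        simp only [ends_eq]; abel
      rw [← g1] at f2
      have f3 := IsG.mul hc (IsG.add hc f1 f2) (IsG.edge_inv L h3)
      have g2 : ends G a c + ends G b d + -ends G c d = ends G a b := by
        simp only [ends_eq]; abel
      rwa [g2] at f3

end Chart

end Pool.Agent.Lib.MP_eee7a8_ag.TB.C81
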