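import Pool.Agent.Lib.MP_eee7a8_ag.TB.C81.GradBase

/-!
# TAGBR: module GRADT (degrees in a chart)
-/

open Matrix

namespace Pool.Agent.Lib.MP_eee7a8_ag.TB.C81

variable {G : Subgroup SLZ} {K : Type*} [Field K] [Algebra ℂ K]

theorem HM.npow {L : Lam G K} {δ : Cusp → ℤ} {x : K} (hx : L.HM δ x) (k : ℕ) :
    L.HM ((k : ℤ) • δ) (x ^ k) := by
  induction k with
  | zero => rw [pow_zero]; simpa using Lam.HM.one
  | succ k ih =>
    have h1 := HM.mul' ih hx
    have h2 : ((k + 1 : ℕ) : ℤ) • δ = (k : ℤ) • δ + δ := by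
      push_cast
      rw [add_smul, one_smul]
    rwa [pow_succ, h2]

theorem HM.zpow {L : Lam G K} {δ : Cusp → ℤ} {x : K} (hx : L.HM δ x) (k : ℤ) :
    L.HM (k • δ) (x ^ k) := by
  obtain ⟨n, rfl | rfl⟩ := k.eq_nat_or_neg
  · rw [zpow_natCast]; exact HM.npow hx n
  · rw [_root_.zpow_neg, zpow_natCast, neg_smul]; exact HM.inv' (HM.npow hx n)

variable {ι : Type} [Fintype ι]

theorem HM.mon (L : Lam G K) {T : Fam ι} (hne : ∀ i, T.s i ≠ T.t i) (m : ι → ℤ) :
    L.HM (degT G T m) (L.mon T m) := by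
  classical
  have key : ∀ s : Finset ι, L.HM (∑ i ∈ s, m i • ends G (T.s i) (T.t i))
      (∏ i ∈ s, L.lam (T.s i) (T.t i) ^ (m i)) := by
    intro s
    induction s using Finset.induction_on with
    | empty => simpa using Lam.HM.one
    | insert a s ha ih =>
      rw [Finset.sum_insert ha, Finset.prod_insert ha]
      exact HM.mul' (HM.zpow (HM.lam (hne a)) (m a)) ih
  have h1 := key Finset.univ
  have h2 : degT G T m = ∑ i, m i • ends G (T.s i) (T.t i) := by
    funext z
    rw [Finset.sum_apply]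
    rfl
  rw [h2]
  exact h1

theorem ev_mem (L : Lam G K) {T : Fam ι} (hne : ∀ i, T.s i ≠ T.t i)
    (p : AddMonoidAlgebra ℂ (ι → ℤ)) (ε : Cusp → ℤ)
    (hp : ∀ m ∈ p.coeff.support, degT G T m = ε) : L.ev T p ∈ L.Hom ε := by
  unfold Lam.ev Finsupp.sum
  apply Submodule.sum_mem
  intro m hm
  simp only
  rw [← Algebra.smul_def, ← hp m hm]
  exact Submodule.smul_mem _ _ (HM.mem (HM.mon L hne m))

open Classical in
/-- The part of degree `ε`. -/
noncomputable def dpart (G : Subgroup SLZ) (T : Fam ι) (ε : Cusp → ℤ)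
    (p : AddMonoidAlgebra ℂ (ι → ℤ)) : AddMonoidAlgebra ℂ (ι → ℤ) :=
  .ofCoeff (p.coeff.filter (fun m => degT G T m = ε))

theorem dpart_coeff (T : Fam ι) (ε : Cusp → ℤ) (p : AddMonoidAlgebra ℂ (ι → ℤ)) (m : ι → ℤ)
    (h : degT G T m = ε) : (dpart G T ε p).coeff m = p.coeff m := by
  classical
  unfold dpart
  change (p.coeff.filter (fun m => degT G T m = ε)) m = _
  exact Finsupp.filter_apply_pos _ _ h

theorem dpart_coeff' (T : Fam ι) (ε : Cusp → ℤ) (p : AddMonoidAlgebra ℂ (ι → ℤ)) (m : ι → ℤ)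
    (h : degT G T m ≠ ε) : (dpart G T ε p).coeff m = 0 := by
  classical
  unfold dpart
  change (p.coeff.filter (fun m => degT G T m = ε)) m = _
  exact Finsupp.filter_apply_neg _ _ h

theorem ev_sum {L : Lam G K} {T : Fam ι} (hc : L.IsChart T) {α : Type*} (s : Finset α)
    (p : α → AddMonoidAlgebra ℂ (ι → ℤ)) :
    L.ev T (∑ a ∈ s, p a) = ∑ a ∈ s, L.ev T (p a) := by
  classical
  induction s using Finset.induction_on with
  | empty => simp [ev_zero]
  | insert a t ha ih => rw [Finset.sum_insert ha, Finset.sum_insert ha, hc.add, ih]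

theorem gradt (hGr : GradStatement) (hC : ChartStatement) : GradtStatement := by
  intro G K _ _ L hG ι _ T hT
  have hc := hC G K L hG ι T hT
  refine ⟨fun m => HM.mem (HM.mon L hT.ne m), ?_⟩
  intro p δ hp m hm
  classical
  by_contra hne
  obtain ⟨g1, -⟩ := hGr G K L hG
  let s : Finset (Cusp → ℤ) := insert δ (p.coeff.support.image (degT G T))
  let x : (Cusp → ℤ) → K := fun ε => L.ev T (dpart G T ε p) - if ε = δ then L.ev T p else 0
  have hdp : ∀ ε, L.ev T (dpart G T ε p) ∈ L.Hom ε := by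
    intro ε
    apply ev_mem L hT.ne
    intro m' hm'
    by_contra hcon
    exact (Finsupp.mem_support_iff.1 hm') (dpart_coeff' T ε p m' hcon)
  have hx : ∀ ε ∈ s, x ε ∈ L.Hom ε := by
    intro ε _
    apply Submodule.sub_mem _ (hdp ε)
    split_ifs with h
    · rw [h]; exact hp
    · exact Submodule.zero_mem _
  have hsum : ∑ ε ∈ s, dpart G T ε p = p := by
    apply AddMonoidAlgebra.ext
    apply Finsupp.ext
    intro m'
    rw [AddMonoidAlgebra.coeff_sum, Finsupp.finsetSum_apply]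
    by_cases h : degT G T m' ∈ s
    · rw [Finset.sum_eq_single_of_mem _ h, dpart_coeff T _ p m' rfl]
      intro ε _ hε
      exact dpart_coeff' T ε p m' (fun h' => hε h'.symm)
    · have h1 : p.coeff m' = 0 := by
        by_contra h2
        apply h
        exact Finset.mem_insert_of_mem (Finset.mem_image_of_mem _ (Finsupp.mem_support_iff.2 h2))
      rw [h1]
      apply Finset.sum_eq_zero
      intro ε hε
      exact dpart_coeff' T ε p m' (fun h' => h (h' ▸ hε))
  have h0 : ∑ ε ∈ s, x ε = 0 := by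
    have h1 : ∑ ε ∈ s, x ε = ∑ ε ∈ s, L.ev T (dpart G T ε p) -
        ∑ ε ∈ s, (if ε = δ then L.ev T p else 0) := Finset.sum_sub_distrib _ _
    rw [h1, ← ev_sum hc, hsum, Finset.sum_ite_eq_of_mem' s δ _ (Finset.mem_insert_self _ _),
      sub_self]
  have hms : degT G T m ∈ s :=
    Finset.mem_insert_of_mem (Finset.mem_image_of_mem _ hm)
  have h3 := g1 s x hx h0 (degT G T m) hms
  have h4 : L.ev T (dpart G T (degT G T m) p) = 0 := by
    have h5 : x (degT G T m) = L.ev T (dpart G T (degT G T m) p) -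
      if degT G T m = δ then L.ev T p else 0 := rfl
    rw [h5, if_neg hne, sub_zero] at h3
    exact h3
  have h6 : dpart G T (degT G T m) p = 0 := by
    apply hc.inj
    rw [h4, ev_zero]
  apply Finsupp.mem_support_iff.1 hm
  rw [← dpart_coeff T _ p m rfl, h6]
  rfl

end Pool.Agent.Lib.MP_eee7a8_ag.TB.C81
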