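import Pool.Agent.Lib.MP_eee7a8_ag.TB.IfaceA
import Pool.Agent.Lib.MP_eee7a8_ag.TB.H12.Exe
import Pool.Agent.Lib.MP_eee7a8_ag.TB.H62.Arcfam
import Pool.Agent.Lib.MP_eee7a8_ag.TB.H65.Fin
import Pool.Agent.Lib.MP_eee7a8_ag.TB.H65.Rho
import Pool.Agent.Lib.MP_eee7a8_ag.TB.H16.Dense

/-!
# TAGBR: module TRPOL (the Laurent polynomials of traces), from CHART, EVN and TRACE
-/

open Matrix

namespace Pool.Agent.Lib.MP_eee7a8_ag.TB.C81

/-- Powers of a hyperbolic matrix are `u h - v`, `|v| < |u|`. -/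
theorem pow_uv (h : SLZ) (ht : 2 < |h.1.trace|) (k : ℕ) : ∃ u v : ℤ, |v| + 1 ≤ |u| ∧
    (h ^ (k + 1)).1 0 0 = u * h.1 0 0 - v ∧ (h ^ (k + 1)).1 0 1 = u * h.1 0 1 ∧
    (h ^ (k + 1)).1 1 0 = u * h.1 1 0 ∧ (h ^ (k + 1)).1 1 1 = u * h.1 1 1 - v := by
  have hdet := det_eq h
  have htr : h.1.trace = h.1 0 0 + h.1 1 1 := Matrix.trace_fin_two _
  induction k with
  | zero =>
    refine ⟨1, 0, by norm_num, ?_, ?_, ?_, ?_⟩ <;> rw [zero_add, pow_one] <;> ring
  | succ k ih =>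
    obtain ⟨u, v, h0, h1, h2, h3, h4⟩ := ih
    refine ⟨u * h.1.trace - v, u, ?_, ?_, ?_, ?_, ?_⟩
    · have h5 : |u * h.1.trace| - |v| ≤ |u * h.1.trace - v| := abs_sub_abs_le_abs_sub _ _
      rw [abs_mul] at h5
      have h6 : |u| * 3 ≤ |u| * |h.1.trace| :=
        mul_le_mul_of_nonneg_left (by omega) (abs_nonneg u)
      have h7 := abs_nonneg v
      omega
    · rw [pow_succ, Matrix.SpecialLinearGroup.coe_mul, Matrix.mul_apply, Fin.sum_univ_two,
        h1, h2, htr]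
      linear_combination (-u) * hdet
    · rw [pow_succ, Matrix.SpecialLinearGroup.coe_mul, Matrix.mul_apply, Fin.sum_univ_two,
        h1, h2, htr]
      ring
    · rw [pow_succ, Matrix.SpecialLinearGroup.coe_mul, Matrix.mul_apply, Fin.sum_univ_two,
        h3, h4, htr]
      ring
    · rw [pow_succ, Matrix.SpecialLinearGroup.coe_mul, Matrix.mul_apply, Fin.sum_univ_two,
        h3, h4, htr]
      linear_combination (-u) * hdet

/-- Powers of a hyperbolic element are hyperbolic with the same axis. -/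
theorem pow_hyp (h : SLZ) (ht : 2 < |h.1.trace|) (k : ℕ) (hk : 1 ≤ k) :
    2 < |(h ^ k).1.trace| ∧ ∀ a b, side h a * side h b < 0 →
      side (h ^ k) a * side (h ^ k) b < 0 := by
  obtain ⟨k, rfl⟩ : ∃ l, k = l + 1 := ⟨k - 1, by omega⟩
  obtain ⟨u, v, h0, h1, h2, h3, h4⟩ := pow_uv h ht k
  have htr : h.1.trace = h.1 0 0 + h.1 1 1 := Matrix.trace_fin_two _
  constructor
  · have e1 : (h ^ (k + 1)).1.trace = u * h.1.trace - 2 * v := by
      rw [Matrix.trace_fin_two, h1, h4, htr]; ring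
    rw [e1]
    have h5 : |u * h.1.trace| - |2 * v| ≤ |u * h.1.trace - 2 * v| := abs_sub_abs_le_abs_sub _ _
    rw [abs_mul, abs_mul] at h5
    have h6 : |u| * 3 ≤ |u| * |h.1.trace| :=
      mul_le_mul_of_nonneg_left (by omega) (abs_nonneg u)
    have h7 := abs_nonneg v
    have h8 : |(2 : ℤ)| = 2 := rfl
    rw [h8] at h5
    omega
  · intro a b hab
    have e1 : ∀ w, side (h ^ (k + 1)) w = u * side h w := by
      intro w
      unfold side
      rw [h1, h2, h3, h4]
      ring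
    rw [e1, e1]
    have hu : u ≠ 0 := by
      rintro rfl
      rw [abs_zero] at h0
      have := abs_nonneg v
      omega
    have e2 : u * side h a * (u * side h b) = (u * u) * (side h a * side h b) := by ring
    rw [e2]
    exact mul_neg_of_pos_of_neg (mul_self_pos.2 hu) hab

/-- Some edge crosses the axis. -/
theorem exists_edge {G : Subgroup SLZ} {ι : Type} [Finite ι] {T : Fam ι} (hT : T.IsTri G)
    (h : SLZ) (ht : 2 < |h.1.trace|) : ∃ a b, T.E G a b ∧ side h a * side h b < 0 := by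
  have hexe : PB.EXE_S := PB.H12.exe PB.H62.arcfam PB.H65.fin (PB.H16.dense PB.H65.rho)
  rcases lt_or_ge h.1.trace 0 with h1 | h1
  · have htr : (-h).1.trace = -h.1.trace := by
      rw [Matrix.trace_fin_two, Matrix.trace_fin_two]
      simp only [Matrix.SpecialLinearGroup.coe_neg, Matrix.neg_apply]
      ring
    obtain ⟨u, v, hE, hu, hv⟩ := hexe G ι inferInstance T (-h) hT (by
      rw [htr, ← abs_of_neg h1]; exact ht)
    rw [PB.side_neg] at hu hv
    exact ⟨u, v, hE, mul_neg_of_pos_of_neg (by linarith) (by linarith)⟩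
  · obtain ⟨u, v, hE, hu, hv⟩ := hexe G ι inferInstance T h hT (by
      rw [← abs_of_nonneg h1]; exact ht)
    exact ⟨u, v, hE, mul_neg_of_neg_of_pos hu hv⟩

theorem trpol (hC : ChartStatement) (hE : EvnStatement) (hTr : TraceStatement) :
    TrPolStatement := by
  intro G K _ _ L hG ι _ T hT P hP hPl h hh ht k hk
  have hex := exists_edge hT h ht
  refine ⟨hex, ?_⟩
  obtain ⟨hk2, hks⟩ := pow_hyp h ht k hk
  obtain ⟨-, t2, -⟩ := hTr G K L hG (h ^ k) (G.pow_mem hh k) hk2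
  obtain ⟨e1, e2, e3, e4, e5, e6, e7⟩ := hE G K L ι T (hC G K L hG ι T hT)
  have hdel : ∀ a b, T.E G a b → L.evN T (AddMonoidAlgebra.single (T.del G a b) 1) = L.lam a b ∧
      L.evN T (AddMonoidAlgebra.single (-(T.del G a b)) 1) * L.lam a b = 1 := by
    classical
    rintro a b ⟨i, hi⟩
    have hlam : L.lam a b = L.lam (T.s i) (T.t i) := by
      obtain ⟨g, hg, ⟨h1, h2⟩ | ⟨h1, h2⟩⟩ := hi
      · rw [← h1, ← h2, L.inv g hg]
      · rw [← h1, ← h2, L.symm, L.inv g hg]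
    have h1 : L.evN T (AddMonoidAlgebra.single (T.del G a b) 1) = L.lam a b := by
      rw [e6, Fam.del_of hT hi, hlam]
      unfold Lam.mon
      rw [Finset.prod_eq_single_of_mem i (Finset.mem_univ i)]
      · rw [Pi.single_eq_same, zpow_one]
      · intro j _ hj
        rw [Pi.single_eq_of_ne hj, zpow_zero]
    refine ⟨h1, ?_⟩
    rw [← h1, ← e2, AddMonoidAlgebra.single_mul_single, neg_add_cancel, mul_one,
      ← AddMonoidAlgebra.one_def, e4]
  obtain ⟨a, b, hab, hs⟩ := hex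
  have hinv : ∀ b : Cusp, (h⁻¹) ^ k • b = (h ^ k)⁻¹ • b := fun b => by rw [inv_pow]
  have hev : L.evN T ((P a (h ^ k • b) + P a ((h⁻¹) ^ k • b)) *
      AddMonoidAlgebra.single (-(T.del G a b)) 1) = L.tr (h ^ k) := by
    rw [e2, e3, hPl, hPl, hinv, ← t2 a b (hks a b hs), mul_assoc, mul_comm (L.lam a b),
      (hdel a b hab).2, mul_one]
  refine ⟨_, ?_, hev⟩
  intro a' b' hab' hs'
  apply e1
  rw [e2, hev, (hdel a' b' hab').1, e3, hPl, hPl, hinv, t2 a' b' (hks a' b' hs')]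

end Pool.Agent.Lib.MP_eee7a8_ag.TB.C81
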